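import Mathlib

set_option autoImplicit false

namespace Pool.Agent.Results.MP_207d4d_co.NonUnimodal

/-- A finite labelled graph with vertex set `Fin n`; loops and multiple edges are allowed.
For `i ≠ j`, `mult i j` is the number of edges joining `i` and `j`; `mult i i` is the number of
loops at `i`. -/
structure LGraph where
  n : ℕ
  mult : Fin n → Fin n → ℕ
  symm : ∀ i j, mult i j = mult j i

/-- `H` and `G` are isomorphic: some bijection of the vertex sets preserves all multiplicities. -/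
def LGraph.Iso (H G : LGraph) : Prop :=
  ∃ e : Fin H.n ≃ Fin G.n, ∀ i j, G.mult (e i) (e j) = H.mult i j

/-- `H` is isomorphic to an induced subgraph of `G`: some injection of the vertex set of `H` into
the vertex set of `G` preserves all multiplicities. -/
def LGraph.IndSub (H G : LGraph) : Prop :=
  ∃ f : Fin H.n ↪ Fin G.n, ∀ i j, G.mult (f i) (f j) = H.mult i j

/-- `G` is connected: it has a vertex, and any two vertices are joined by a walk. -/
def LGraph.Conn (G : LGraph) : Prop :=
  0 < G.n ∧ ∀ i j, Relation.ReflTransGen (fun a b => 0 < G.mult a b) i j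

/-- `G` is simple: no loops and no multiple edges. -/
def LGraph.Simp (G : LGraph) : Prop :=
  ∀ i j, G.mult i i = 0 ∧ G.mult i j ≤ 1

theorem LGraph.Iso.refl (G : LGraph) : G.Iso G := ⟨Equiv.refl _, fun _ _ => rfl⟩

theorem LGraph.Iso.symm {H G : LGraph} (h : H.Iso G) : G.Iso H := by
  obtain ⟨e, he⟩ := h
  refine ⟨e.symm, fun i j => ?_⟩
  rw [← he]
  simp

theorem LGraph.Iso.trans {H G K : LGraph} (h : H.Iso G) (h' : G.Iso K) : H.Iso K := by
  obtain ⟨e, he⟩ := h
  obtain ⟨e', he'⟩ := h'
  exact ⟨e.trans e', fun i j => by rw [Equiv.trans_apply, Equiv.trans_apply, he', he]⟩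

/-- Isomorphism as a setoid. -/
instance isoSetoid : Setoid LGraph :=
  ⟨LGraph.Iso, LGraph.Iso.refl, LGraph.Iso.symm, LGraph.Iso.trans⟩

/-- Unlabelled graphs, i.e. isomorphism classes of finite graphs with loops and multiple edges
allowed. -/
def UGraph : Type := Quotient isoSetoid

theorem LGraph.Iso.n_eq {H G : LGraph} (h : H.Iso G) : H.n = G.n := by
  obtain ⟨e, -⟩ := h
  simpa using Fintype.card_congr e

theorem LGraph.Iso.indSub {H G : LGraph} (h : H.Iso G) : H.IndSub G := by
  obtain ⟨e, he⟩ := h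
  exact ⟨e.toEmbedding, he⟩

theorem LGraph.IndSub.trans {H G K : LGraph} (h : H.IndSub G) (h' : G.IndSub K) :
    H.IndSub K := by
  obtain ⟨e, he⟩ := h
  obtain ⟨e', he'⟩ := h'
  refine ⟨e.trans e', fun i j => ?_⟩
  rw [Function.Embedding.trans_apply, Function.Embedding.trans_apply, he', he]

theorem LGraph.Iso.conn {H G : LGraph} (h : H.Iso G) (hG : G.Conn) : H.Conn := by
  refine ⟨h.n_eq ▸ hG.1, fun i j => ?_⟩
  obtain ⟨e, he⟩ := h
  have key : ∀ a b, Relation.ReflTransGen (fun a b => 0 < G.mult a b) a b →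
      Relation.ReflTransGen (fun a b => 0 < H.mult a b) (e.symm a) (e.symm b) := by
    intro a b hab
    induction hab with
    | refl => exact Relation.ReflTransGen.refl
    | tail _ h2 ih =>
      refine ih.tail ?_
      rw [← he]
      simpa using h2
  simpa using key _ _ (hG.2 (e i) (e j))

theorem LGraph.Iso.simp {H G : LGraph} (h : H.Iso G) (hG : G.Simp) : H.Simp := by
  obtain ⟨e, he⟩ := h
  intro i j
  rw [← he, ← he]
  exact hG _ _

/-- The number of vertices `|G|` of an unlabelled graph. -/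
def UGraph.order : UGraph → ℕ := Quotient.lift LGraph.n (fun _ _ h => LGraph.Iso.n_eq h)

/-- An unlabelled graph is connected. -/
def UGraph.Conn : UGraph → Prop := Quotient.lift LGraph.Conn
  (fun _ _ h => propext ⟨LGraph.Iso.conn (LGraph.Iso.symm h), LGraph.Iso.conn h⟩)

/-- An unlabelled graph is simple. -/
def UGraph.Simp : UGraph → Prop := Quotient.lift LGraph.Simp
  (fun _ _ h => propext ⟨LGraph.Iso.simp (LGraph.Iso.symm h), LGraph.Iso.simp h⟩)

/-- `H ≤ G` for unlabelled graphs: `H` is isomorphic to an induced subgraph of `G`. -/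
def UGraph.le : UGraph → UGraph → Prop := Quotient.lift₂ LGraph.IndSub
  (fun _ _ _ _ h h' => propext
    ⟨fun k => (LGraph.Iso.indSub (LGraph.Iso.symm h)).trans (k.trans (LGraph.Iso.indSub h')),
     fun k => (LGraph.Iso.indSub h).trans (k.trans (LGraph.Iso.indSub (LGraph.Iso.symm h')))⟩)

/-- The poset `𝒢` of unlabelled graphs ordered by induced containment. -/
instance : PartialOrder UGraph where
  le := UGraph.le
  le_refl := by
    rintro ⟨G⟩
    exact ⟨Function.Embedding.refl _, fun _ _ => rfl⟩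
  le_trans := by
    rintro ⟨H⟩ ⟨G⟩ ⟨K⟩ h h'
    exact LGraph.IndSub.trans h h'
  le_antisymm := by
    rintro ⟨H⟩ ⟨G⟩ ⟨f, hf⟩ ⟨g, -⟩
    apply Quotient.sound
    have h1 : H.n ≤ G.n := by simpa using Fintype.card_le_of_embedding f
    have h2 : G.n ≤ H.n := by simpa using Fintype.card_le_of_embedding g
    have hb : Function.Bijective f :=
      (Fintype.bijective_iff_injective_and_card f).2 ⟨f.injective, by simp; omega⟩
    exact ⟨Equiv.ofBijective f hb, hf⟩

/-- The number of elements of rank `k` of the interval `[H, G]` of the poset `𝒢`. -/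
noncomputable def rank (H G : UGraph) (k : ℕ) : ℕ :=
  Set.ncard {K : UGraph | K ∈ Set.Icc H G ∧ K.order = H.order + k}

/-- The number of elements of rank `k` of the interval `[H, G]ᶜ` of the poset `𝒢ᶜ` of connected
unlabelled graphs. -/
noncomputable def rankConn (H G : UGraph) (k : ℕ) : ℕ :=
  Set.ncard {K : UGraph | K ∈ Set.Icc H G ∧ K.Conn ∧ K.order = H.order + k}

/-- The sequence `r 0, r 1, ..., r L` is unimodal. -/
def Unimodal (r : ℕ → ℕ) (L : ℕ) : Prop :=
  ∃ m ≤ L, (∀ k, k < m → r k ≤ r (k + 1)) ∧ (∀ k, m ≤ k → k < L → r (k + 1) ≤ r k)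

/-! ### The two graphs -/

/-- adjacency of two copies of `K₄` joined by two disjoint edges -/
def adj8 (i j : Fin 8) : Bool :=
  (i != j) && ((decide (i.val < 4) == decide (j.val < 4)) ||
    (i.val + 4 == j.val && decide (i.val < 2)) || (j.val + 4 == i.val && decide (j.val < 2)))

theorem adj8_symm : ∀ i j : Fin 8, adj8 i j = adj8 j i := by decide

/-- the induced subgraph of the eight-vertex graph on the image of `v` -/
def sub {n : ℕ} (v : Fin n → Fin 8) : LGraph where
  n := n
  mult := fun i j => if adj8 (v i) (v j) then 1 else 0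
  symm := fun i j => by rw [adj8_symm]

/-- two copies of `K₄` joined by two disjoint edges -/
def G8 : LGraph := sub (fun i : Fin 8 => i)

/-- one vertex, no edges -/
def K1 : LGraph := sub (fun _ : Fin 1 => 0)

/-- class of a labelled graph -/
def cls (G : LGraph) : UGraph := Quotient.mk isoSetoid G

theorem sub_le {n : ℕ} (v : Fin n → Fin 8) (hv : Function.Injective v) :
    cls (sub v) ≤ cls G8 := ⟨⟨v, hv⟩, fun _ _ => rfl⟩

theorem K1_le {n : ℕ} (v : Fin n → Fin 8) (hn : 0 < n) : cls K1 ≤ cls (sub v) := by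
  refine ⟨⟨fun _ => ⟨0, hn⟩, fun i j _ => Subsingleton.elim (α := Fin 1) i j⟩, fun i j => ?_⟩
  have h0 : ∀ x : Fin 8, adj8 x x = false := by decide
  change (if adj8 (v ⟨0, hn⟩) (v ⟨0, hn⟩) then 1 else 0) = (if adj8 0 0 then 1 else 0)
  rw [h0, h0]

/-- every unlabelled graph below `G8` is the class of an induced subgraph on a sorted tuple -/
theorem le_G8 {n : ℕ} {K : UGraph} (hK : K ≤ cls G8) (hn : K.order = n) :
    ∃ v : Fin n → Fin 8, StrictMono v ∧ K = cls (sub v) := by
  obtain ⟨K, rfl⟩ := Quotient.exists_rep K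
  change K.n = n at hn
  subst hn
  obtain ⟨f, hf⟩ := hK
  change Fin K.n ↪ Fin 8 at f
  change ∀ i j, (if adj8 (f i) (f j) then 1 else 0) = K.mult i j at hf
  have hS : (Finset.univ.map f).card = K.n := by simp
  set S : Finset (Fin 8) := Finset.univ.map f with hSdef
  have hmem : ∀ i, f i ∈ S := fun i => Finset.mem_map_of_mem f (Finset.mem_univ i)
  let o := S.orderIsoOfFin hS
  refine ⟨fun i => (o i : Fin 8), fun a b hab => o.strictMono hab, ?_⟩
  apply Quotient.sound
  let e : Fin K.n → Fin K.n := fun i => o.symm ⟨f i, hmem i⟩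
  have hinj : Function.Injective e := by
    intro i j hij
    have h1 := o.symm.injective hij
    exact f.injective (by simpa using h1)
  have hb : Function.Bijective e := Finite.injective_iff_bijective.1 hinj
  refine ⟨Equiv.ofBijective e hb, fun i j => ?_⟩
  change (if adj8 (o (e i)) (o (e j)) then 1 else 0) = K.mult i j
  rw [← hf]
  simp [e]

theorem finite_le (n : ℕ) : {K : UGraph | K ≤ cls G8 ∧ K.order = n}.Finite := by
  refine (Set.finite_range (fun v : Fin n → Fin 8 => cls (sub v))).subset ?_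
  rintro K ⟨h1, h2⟩
  obtain ⟨v, -, rfl⟩ := le_G8 h1 h2
  exact ⟨v, rfl⟩

/-- an isomorphism invariant: the sum of the squares of the degrees -/
def LGraph.sq (G : LGraph) : ℕ := ∑ i, (∑ j, G.mult i j) ^ 2

theorem LGraph.Iso.sq_eq {H G : LGraph} (h : H.Iso G) : H.sq = G.sq := by
  obtain ⟨e, he⟩ := h
  unfold LGraph.sq
  rw [← e.sum_comp]
  refine Finset.sum_congr rfl fun i _ => ?_
  rw [← e.sum_comp]
  congr 1
  exact Finset.sum_congr rfl fun j _ => (he i j).symm

/-- the invariant on unlabelled graphs -/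
def UGraph.sq : UGraph → ℕ := Quotient.lift LGraph.sq (fun _ _ h => LGraph.Iso.sq_eq h)

theorem upper_bound (t : Set UGraph) (reps : List (Fin 5 → Fin 8))
    (h : ∀ K ∈ t, ∃ v ∈ reps, K = cls (sub v)) : t.ncard ≤ reps.length := by
  classical
  have : t ⊆ ((reps.map (fun v => cls (sub v))).toFinset : Set UGraph) := by
    intro K hK
    obtain ⟨v, hv, rfl⟩ := h K hK
    simp only [List.coe_toFinset, List.mem_map, Set.mem_ofPred_eq]
    exact ⟨v, hv, rfl⟩
  refine (Set.ncard_le_ncard this (Finset.finite_toSet _)).trans ?_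
  rw [Set.ncard_coe_finset]
  exact (List.toFinset_card_le _).trans (by simp)

theorem lower_bound {n m : ℕ} (t : Set UGraph) (ht : t.Finite) (reps : Fin m → Fin n → Fin 8)
    (hr : ∀ i, cls (sub (reps i)) ∈ t)
    (hq : Function.Injective (fun i => (sub (reps i)).sq)) : m ≤ t.ncard := by
  classical
  have h1 : Function.Injective (fun i => cls (sub (reps i))) := by
    intro i j hij
    apply hq
    have := congrArg UGraph.sq hij
    exact this
  have : ((Finset.univ.image (fun i => cls (sub (reps i))) : Finset UGraph) : Set UGraph) ⊆ t := by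
    intro K hK
    simp only [Finset.coe_image, Finset.coe_univ, Set.image_univ, Set.mem_range] at hK
    obtain ⟨i, rfl⟩ := hK
    exact hr i
  have h2 := Set.ncard_le_ncard this ht
  rw [Set.ncard_coe_finset, Finset.card_image_of_injective _ h1] at h2
  simpa using h2

theorem not_conn {n : ℕ} (v : Fin n → Fin 8) (c : Fin n → Bool)
    (hc : ∀ a b, adj8 (v a) (v b) = true → c a = c b) (x y : Fin n) (hxy : c x ≠ c y) :
    ¬ (sub v).Conn := by
  intro h
  have key : ∀ a b, Relation.ReflTransGen (fun a b => 0 < (sub v).mult a b) a b → c a = c b := by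
    intro a b hab
    induction hab with
    | refl => rfl
    | tail _ h2 ih =>
      rw [ih]
      apply hc
      by_contra h3
      change 0 < (if adj8 (v _) (v _) then 1 else 0) at h2
      rw [if_neg h3] at h2
      exact lt_irrefl 0 h2
  exact hxy (key x y (h.2 x y))

/-- representatives of order 5; the last three are the connected ones -/
def reps5 : List (Fin 5 → Fin 8) :=
  [![0, 1, 2, 3, 6], ![0, 1, 2, 6, 7], ![0, 1, 2, 3, 4], ![0, 1, 2, 4, 6], ![0, 1, 2, 4, 5]]

/-- connected representatives of order 5 -/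
def reps5c : List (Fin 5 → Fin 8) :=
  [![0, 1, 2, 3, 4], ![0, 1, 2, 4, 6], ![0, 1, 2, 4, 5]]

/-- permutations used to match five-element subsets with the representatives -/
def perms : List (Fin 5 → Fin 5) := [![0, 1, 2, 3, 4], ![3, 4, 0, 1, 2], ![1, 0, 2, 3, 4], ![4, 3, 0, 1, 2], ![3, 4, 2, 0, 1], ![4, 0, 1, 2, 3], ![0, 1, 2, 4, 3]]

theorem cert5 : ∀ a b : Fin 8, a < b → ∀ c, b < c → ∀ d, c < d → ∀ e, d < e →
    ∃ r ∈ reps5, ∃ σ ∈ perms, ∀ i j, adj8 (![a, b, c, d, e] i) (![a, b, c, d, e] j) =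
      adj8 (r (σ i)) (r (σ j)) := by
  decide

theorem perms_inj : ∀ σ ∈ perms, ∀ i j, σ i = σ j → i = j := by
  intro σ hσ
  simp only [perms, List.mem_cons, List.not_mem_nil, or_false] at hσ
  rcases hσ with rfl | rfl | rfl | rfl | rfl | rfl | rfl <;> decide

theorem reps_of_order5 {K : UGraph} (hK : K ≤ cls G8) (hn : K.order = 5) :
    ∃ r ∈ reps5, K = cls (sub r) := by
  obtain ⟨v, hv, rfl⟩ := le_G8 hK hn
  have hlt : ∀ i j : Fin 5, i < j → v i < v j := fun i j h => hv h
  obtain ⟨r, hr, σ, hσ, h⟩ := cert5 (v 0) (v 1) (hlt 0 1 (by decide)) (v 2) (hlt 1 2 (by decide))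
    (v 3) (hlt 2 3 (by decide)) (v 4) (hlt 3 4 (by decide))
  have hv' : ![v 0, v 1, v 2, v 3, v 4] = v := by
    funext i
    fin_cases i <;> rfl
  rw [hv'] at h
  refine ⟨r, hr, Quotient.sound ?_⟩
  have hb : Function.Bijective σ :=
    Finite.injective_iff_bijective.1 (fun i j hij => perms_inj σ hσ i j hij)
  exact ⟨Equiv.ofBijective σ hb,
    fun i j => (congrArg (fun b : Bool => if b then 1 else 0) (h i j)).symm⟩

theorem reps5_conn : ∀ r ∈ reps5, (sub r).Conn → r ∈ reps5c := by
  intro r hr hc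
  simp only [reps5, List.mem_cons, List.not_mem_nil, or_false] at hr
  rcases hr with rfl | rfl | rfl | rfl | rfl
  · exact absurd hc (not_conn _ ![true, true, true, true, false] (by decide) 0 4 (by decide))
  · exact absurd hc (not_conn _ ![true, true, true, false, false] (by decide) 0 4 (by decide))
  · simp [reps5c]
  · simp [reps5c]
  · simp [reps5c]

theorem conn_of_center {n : ℕ} (v : Fin n → Fin 8) (c : Fin n)
    (h : ∀ i, ∃ j, (i = j ∨ adj8 (v i) (v j) = true) ∧ (j = c ∨ adj8 (v j) (v c) = true)) :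
    (sub v).Conn := by
  have hadj : ∀ i j, adj8 (v i) (v j) = true → 0 < (sub v).mult i j := by
    intro i j hij
    change 0 < (if adj8 (v i) (v j) then 1 else 0)
    rw [if_pos hij]
    exact Nat.one_pos
  have key : ∀ i, Relation.ReflTransGen (fun a b => 0 < (sub v).mult a b) i c := by
    intro i
    obtain ⟨j, h1, h2⟩ := h i
    have h3 : Relation.ReflTransGen (fun a b => 0 < (sub v).mult a b) i j := by
      rcases h1 with rfl | h1
      · exact Relation.ReflTransGen.refl
      · exact Relation.ReflTransGen.single (hadj _ _ h1)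
    rcases h2 with rfl | h2
    · exact h3
    · exact h3.tail (hadj _ _ h2)
  have symm : ∀ i j, Relation.ReflTransGen (fun a b => 0 < (sub v).mult a b) i j →
      Relation.ReflTransGen (fun a b => 0 < (sub v).mult a b) j i := by
    intro i j hij
    induction hij with
    | refl => exact Relation.ReflTransGen.refl
    | tail _ h2 ih =>
      refine Relation.ReflTransGen.head ?_ ih
      rw [(sub v).symm]
      exact h2
  exact ⟨c.pos, fun i j => (key i).trans (symm _ _ (key j))⟩

theorem simp_sub {n : ℕ} (v : Fin n → Fin 8) : (sub v).Simp := by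
  intro i j
  have h0 : ∀ x : Fin 8, adj8 x x = false := by decide
  constructor
  · change (if adj8 (v i) (v i) then 1 else 0) = 0
    rw [h0]
    rfl
  · change (if adj8 (v i) (v j) then 1 else 0) ≤ 1
    split_ifs <;> simp

/-- six pairwise non-isomorphic induced subgraphs of order 4 -/
def reps4 : Fin 6 → Fin 4 → Fin 8 :=
  ![![0, 1, 2, 6], ![0, 1, 6, 7], ![0, 1, 2, 3], ![0, 1, 2, 4], ![0, 1, 4, 6], ![0, 1, 4, 5]]

/-- four connected ones of order 4 -/
def reps4c : Fin 4 → Fin 4 → Fin 8 :=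
  ![![0, 1, 2, 3], ![0, 1, 2, 4], ![0, 1, 4, 6], ![0, 1, 4, 5]]

/-- six pairwise non-isomorphic induced subgraphs of order 6 -/
def reps6 : Fin 6 → Fin 6 → Fin 8 :=
  ![![0, 1, 2, 3, 6, 7], ![0, 1, 2, 3, 4, 6], ![0, 1, 2, 3, 4, 5],
    ![0, 2, 3, 5, 6, 7], ![0, 1, 2, 4, 6, 7], ![0, 1, 2, 4, 5, 6]]

/-- four connected ones of order 6 -/
def reps6c : Fin 4 → Fin 6 → Fin 8 :=
  ![![0, 1, 2, 3, 4, 6], ![0, 1, 2, 3, 4, 5], ![0, 1, 2, 4, 6, 7], ![0, 1, 2, 4, 5, 6]]

theorem order_sub {n : ℕ} (v : Fin n → Fin 8) : (cls (sub v)).order = n := rfl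

theorem rank3 : 6 ≤ rank (cls K1) (cls G8) 3 := by
  refine lower_bound (n := 4) _ ((finite_le 4).subset ?_) reps4 (fun i => ?_) ?_
  · rintro K ⟨h1, h2⟩
    exact ⟨h1.2, h2⟩
  · refine ⟨⟨K1_le _ (by norm_num), sub_le _ ?_⟩, rfl⟩
    revert i; decide
  · decide

theorem rank4 : rank (cls K1) (cls G8) 4 ≤ 5 := by
  refine upper_bound _ reps5 ?_
  rintro K ⟨h1, h2⟩
  exact reps_of_order5 h1.2 h2

theorem rank5 : 6 ≤ rank (cls K1) (cls G8) 5 := by
  refine lower_bound (n := 6) _ ((finite_le 6).subset ?_) reps6 (fun i => ?_) ?_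
  · rintro K ⟨h1, h2⟩
    exact ⟨h1.2, h2⟩
  · refine ⟨⟨K1_le _ (by norm_num), sub_le _ ?_⟩, rfl⟩
    revert i; decide
  · decide

theorem rankConn3 : 4 ≤ rankConn (cls K1) (cls G8) 3 := by
  refine lower_bound (n := 4) _ ((finite_le 4).subset ?_) reps4c (fun i => ?_) ?_
  · rintro K ⟨h1, -, h2⟩
    exact ⟨h1.2, h2⟩
  · refine ⟨⟨K1_le _ (by norm_num), sub_le _ ?_⟩, ?_, rfl⟩
    · revert i; decide
    · refine conn_of_center _ 0 ?_
      revert i; decide
  · decide

theorem rankConn4 : rankConn (cls K1) (cls G8) 4 ≤ 3 := by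
  refine upper_bound _ reps5c ?_
  rintro K ⟨h1, h3, h2⟩
  obtain ⟨r, hr, rfl⟩ := reps_of_order5 h1.2 h2
  exact ⟨r, reps5_conn r hr h3, rfl⟩

theorem rankConn5 : 4 ≤ rankConn (cls K1) (cls G8) 5 := by
  refine lower_bound (n := 6) _ ((finite_le 6).subset ?_) reps6c (fun i => ?_) ?_
  · rintro K ⟨h1, -, h2⟩
    exact ⟨h1.2, h2⟩
  · refine ⟨⟨K1_le _ (by norm_num), sub_le _ ?_⟩, ?_, rfl⟩
    · revert i; decide
    · refine conn_of_center _ 0 ?_
      revert i; decide
  · decide

theorem not_unimodal {r : ℕ → ℕ} {L a : ℕ} (ha : a + 2 ≤ L) (h1 : r (a + 1) < r a)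
    (h2 : r (a + 1) < r (a + 2)) : ¬ Unimodal r L := by
  rintro ⟨m, -, h3, h4⟩
  by_cases h : a < m
  · have := h3 a h
    omega
  · have := h4 (a + 1) (by omega) (by omega)
    have e : a + 1 + 1 = a + 2 := rfl
    rw [e] at this
    omega

/-- There are connected simple graphs `H` (one vertex) and `G` (eight vertices), `H ≤ G`, such
that neither the interval `[H, G]` of the poset of all unlabelled graphs nor the interval
`[H, G]ᶜ` of the poset of connected unlabelled graphs is unimodal. -/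
theorem result : ∃ H G : UGraph, H ≤ G ∧ H.order = 1 ∧ G.order = 8 ∧ H.Simp ∧ G.Simp ∧
    H.Conn ∧ G.Conn ∧ ¬ Unimodal (rank H G) (G.order - H.order) ∧
    ¬ Unimodal (rankConn H G) (G.order - H.order) := by
  refine ⟨cls K1, cls G8, K1_le _ (by norm_num), rfl, rfl, simp_sub _, simp_sub _,
    conn_of_center _ 0 (by decide), conn_of_center _ 0 (by decide), ?_, ?_⟩
  · refine not_unimodal (a := 3) (show 3 + 2 ≤ 8 - 1 by norm_num) ?_ ?_
    · exact lt_of_le_of_lt rank4 (lt_of_lt_of_le (by norm_num) rank3)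
    · exact lt_of_le_of_lt rank4 (lt_of_lt_of_le (by norm_num) rank5)
  · refine not_unimodal (a := 3) (show 3 + 2 ≤ 8 - 1 by norm_num) ?_ ?_
    · exact lt_of_le_of_lt rankConn4 (lt_of_lt_of_le (by norm_num) rankConn3)
    · exact lt_of_le_of_lt rankConn4 (lt_of_lt_of_le (by norm_num) rankConn5)

end Pool.Agent.Results.MP_207d4d_co.NonUnimodal
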